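import Pool.Agent.Helper42.M1.Path
import Pool.Agent.Helper66.LK.Spin

set_option autoImplicit false

/-!
# The wall as a set of edges of the square lattice: one bi-infinite path of the dual lattice
-/

namespace Pool.Agent.Helper42.M1

open MeasureTheory ProbabilityTheory Filter Topology Pool.Agent.Helper60.TJ Pool.Agent.Helper61.MM
open Pool.Agent.Helper66.LK (cE vV Ve vV_Ve)
open Pool.H66.EAM (V E bond)

/-- the four edges of the plaquette with lower left corner `v` -/
def plq (v : V) : Set E :=
  {(v, 0), (v, 1), (v + (Pi.single 0 (1 : ℤ) : Fin 2 → ℤ), 1),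
    (v + (Pi.single 1 (1 : ℤ) : Fin 2 → ℤ), 0)}

/-- `D` is (the set of edges crossed by) one bi-infinite self-avoiding path of the dual lattice:
`D` is infinite, every plaquette has no edge or exactly two edges in `D`, and any two edges
of `D` are joined by a chain of edges of `D` in which consecutive edges lie on a common plaquette -/
structure IsLine (D : Set E) : Prop where
  nonempty : D.Nonempty
  infinite : D.Infinite
  deg : ∀ v : V, (plq v ∩ D).ncard = 0 ∨ (plq v ∩ D).ncard = 2
  conn : ∀ e ∈ D, ∀ e' ∈ D,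
    Relation.ReflTransGen (fun a b => b ∈ D ∧ ∃ v, a ∈ plq v ∧ b ∈ plq v) e e'

theorem mem_plq {v : V} {e : E} : e ∈ plq v ↔ ∃ d : Dir, cE e = edg (vV v) d := by
  have h0 : cE.symm (edg (vV v) 0) = (v + (Pi.single 0 (1 : ℤ) : Fin 2 → ℤ), 1) := by
    refine Prod.ext ?_ rfl
    funext j
    fin_cases j
    · simp [cE, Ve, vV, edg]
    · simp [cE, Ve, vV, edg]
  have h1 : cE.symm (edg (vV v) 1) = (v + (Pi.single 1 (1 : ℤ) : Fin 2 → ℤ), 0) := by
    refine Prod.ext ?_ rfl
    funext j
    fin_cases j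
    · simp [cE, Ve, vV, edg]
    · simp [cE, Ve, vV, edg]
  have h2 : cE.symm (edg (vV v) 2) = (v, 1) := by
    refine Prod.ext ?_ rfl
    funext j
    fin_cases j
    · simp [cE, Ve, vV, edg]
    · simp [cE, Ve, vV, edg]
  have h3 : cE.symm (edg (vV v) 3) = (v, 0) := by
    refine Prod.ext ?_ rfl
    funext j
    fin_cases j
    · simp [cE, Ve, vV, edg]
    · simp [cE, Ve, vV, edg]
  have key : ∀ d : Dir, cE e = edg (vV v) d ↔ e = cE.symm (edg (vV v) d) := fun d => by
    rw [Equiv.eq_symm_apply]
  unfold plq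
  simp only [Set.mem_insert_iff, Set.mem_singleton_iff]
  constructor
  · rintro (h | h | h | h)
    · exact ⟨3, (key 3).2 (h.trans h3.symm)⟩
    · exact ⟨2, (key 2).2 (h.trans h2.symm)⟩
    · exact ⟨0, (key 0).2 (h.trans h0.symm)⟩
    · exact ⟨1, (key 1).2 (h.trans h1.symm)⟩
  · rintro ⟨d, hd⟩
    have hd' := (key d).1 hd
    fin_cases d
    · exact Or.inr (Or.inr (Or.inl (hd'.trans h0)))
    · exact Or.inr (Or.inr (Or.inr (hd'.trans h1)))
    · exact Or.inr (Or.inl (hd'.trans h2))
    · exact Or.inl (hd'.trans h3)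

private theorem card_aux (w : Fin 4 → Bool) (h : xor (xor (w 0) (w 1)) (xor (w 2) (w 3)) = false)
    (h' : ∃ d, w d = false) : (Finset.univ.filter fun d => w d = true).card = 0 ∨
      (Finset.univ.filter fun d => w d = true).card = 2 := by
  revert w
  decide

/-- the edges of a plaquette in the wall -/
theorem deg_of {W : Ed → Bool} (hW : Deg2 W) (v : V) :
    (plq v ∩ {e | W (cE e) = true}).ncard = 0 ∨ (plq v ∩ {e | W (cE e) = true}).ncard = 2 := by
  classical
  have h1 : plq v ∩ {e | W (cE e) = true} =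
      (fun d => cE.symm (edg (vV v) d)) ''
        ((Finset.univ.filter fun d : Dir => W (edg (vV v) d) = true : Finset Dir) : Set Dir) := by
    ext e
    simp only [Set.mem_inter_iff, Set.mem_image, Finset.coe_filter, Finset.mem_univ, true_and]
    rw [mem_plq]
    constructor
    · rintro ⟨⟨d, hd⟩, he⟩
      refine ⟨d, ?_, ?_⟩
      · show W (edg (vV v) d) = true
        rw [← hd]; exact he
      · rw [← hd, Equiv.symm_apply_apply]
    · rintro ⟨d, hd, rfl⟩
      refine ⟨⟨d, by rw [Equiv.apply_symm_apply]⟩, ?_⟩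
      show W (cE (cE.symm (edg (vV v) d))) = true
      rw [Equiv.apply_symm_apply]
      exact hd
  have hinj : Function.Injective fun d => cE.symm (edg (vV v) d) :=
    cE.symm.injective.comp (edg_injective _)
  rw [h1, Set.ncard_image_of_injective _ hinj, Set.ncard_coe_finset]
  exact card_aux (fun d => W (edg (vV v) d)) (hW.1 (vV v)) (hW.2 (vV v))

/-- one path without cycles is a line -/
theorem isLine_of_one {w : Ed → ℝ} {U U' : Ed → Bool} (h : One (w, U, U'))
    (hac : ∀ C : Finset Ed, IsCyc C → (∀ e ∈ C, wl (w, U, U') e = true) → C = ∅) :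
    IsLine {e : E | U (cE e) ≠ U' (cE e)} := by
  classical
  set W : Ed → Bool := bx U U' with hWd
  have hD : {e : E | U (cE e) ≠ U' (cE e)} = {e : E | W (cE e) = true} := by
    ext e
    show U (cE e) ≠ U' (cE e) ↔ xor (U (cE e)) (U' (cE e)) = true
    cases U (cE e) <;> cases U' (cE e) <;> simp
  rw [hD]
  have hdeg : Deg2 W := h.1
  obtain ⟨v₀, d₀, hd₀⟩ := h.2.1
  have hne : ({e : E | W (cE e) = true} : Set E).Nonempty :=
    ⟨cE.symm (edg v₀ d₀), by
      show W (cE (cE.symm (edg v₀ d₀))) = true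
      rw [Equiv.apply_symm_apply]; exact hd₀⟩
  refine ⟨hne, ?_, deg_of hdeg, ?_⟩
  · intro hfin
    have hfin2 : {f : Ed | W f = true}.Finite := by
      refine (hfin.image cE).subset ?_
      intro f hf
      refine ⟨cE.symm f, ?_, by rw [Equiv.apply_symm_apply]⟩
      show W (cE (cE.symm f)) = true
      rw [Equiv.apply_symm_apply]; exact hf
    have hmem : ∀ f, f ∈ hfin2.toFinset ↔ W f = true := fun f => by
      rw [Set.Finite.mem_toFinset]; rfl
    have hind : ind hfin2.toFinset = W := by
      funext f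
      cases hf : W f
      · rw [ind, decide_eq_false_iff_not, hmem, hf]; decide
      · rw [ind, decide_eq_true_iff, hmem, hf]
    have hemp := hac hfin2.toFinset (fun v => by rw [hind]; exact hdeg.1 v)
      (fun f hf => (hmem f).1 hf)
    have : edg v₀ d₀ ∈ hfin2.toFinset := (hmem _).2 hd₀
    rw [hemp] at this
    exact absurd this (Finset.notMem_empty _)
  · intro e he e' he'
    set r : E → E → Prop := fun a b => b ∈ ({e : E | W (cE e) = true} : Set E) ∧
      ∃ v, a ∈ plq v ∧ b ∈ plq v with hr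
    set A : Ed → Bool := fun f => decide (Relation.ReflTransGen r e (cE.symm f)) with hA
    have hAiff : ∀ f, A f = true ↔ Relation.ReflTransGen r e (cE.symm f) := fun f => by
      rw [hA]; exact decide_eq_true_iff
    have hstep : ∀ (v : Vx) (d d' : Dir), W (edg v d') = true → A (edg v d) = true →
        A (edg v d') = true := by
      intro v d d' hw hAd
      rw [hAiff] at hAd ⊢
      refine hAd.tail ⟨?_, Ve v, ?_, ?_⟩
      · show W (cE (cE.symm (edg v d'))) = true
        rw [Equiv.apply_symm_apply]; exact hw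
      · rw [mem_plq, vV_Ve]; exact ⟨d, by rw [Equiv.apply_symm_apply]⟩
      · rw [mem_plq, vV_Ve]; exact ⟨d', by rw [Equiv.apply_symm_apply]⟩
    have hsub : ∀ f, A f = true → W f = true := by
      intro f hf
      rw [hAiff] at hf
      rcases Relation.ReflTransGen.cases_tail hf with h1 | ⟨g, -, hg⟩
      · have h2 : W (cE e) = true := he
        rw [← h1, Equiv.apply_symm_apply] at h2
        exact h2
      · have h2 : W (cE (cE.symm f)) = true := hg.1
        rw [Equiv.apply_symm_apply] at h2
        exact h2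
    have hSat : Sat W A := by
      refine ⟨hsub, fun v d d' hd hd' => ?_⟩
      cases h1 : A (edg v d) <;> cases h2 : A (edg v d')
      · rfl
      · have := hstep v d' d hd h2
        rw [h1] at this; exact this
      · have := hstep v d d' hd' h1
        rw [h2] at this; exact this.symm
      · rfl
    obtain ⟨v, d, hvd⟩ := exists_edg (cE e)
    obtain ⟨v', d', hvd'⟩ := exists_edg (cE e')
    have hw : W (edg v d) = true := by rw [hvd]; exact he
    have hw' : W (edg v' d') = true := by rw [hvd']; exact he'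
    have hc : Cn W v v' := h.2.2 v v' ⟨d, hw⟩ ⟨d', hw'⟩
    have h1 := E2.Sat.cn hSat hc hw hw'
    have h2 : A (edg v d) = true := by
      rw [hAiff, hvd, Equiv.symm_apply_apply]
    rw [h2] at h1
    have h3 := (hAiff _).1 h1.symm
    rw [hvd', Equiv.symm_apply_apply] at h3
    exact h3

/-- the spin side -/
theorem isLine_bond {w : Ed → ℝ} {U U' : Ed → Bool} (h : One (w, U, U'))
    (hac : ∀ C : Finset Ed, IsCyc C → (∀ e ∈ C, wl (w, U, U') e = true) → C = ∅)
    {s s' : V → ℝ} {N : Ed → Bool} (hs : ∀ e, bond s e = sg (xor (N (cE e)) (U (cE e))))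
    (hs' : ∀ e, bond s' e = sg (xor (N (cE e)) (U' (cE e)))) :
    IsLine {e : E | bond s e ≠ bond s' e} := by
  have hD : {e : E | bond s e ≠ bond s' e} = {e : E | U (cE e) ≠ U' (cE e)} := by
    ext e
    show bond s e ≠ bond s' e ↔ U (cE e) ≠ U' (cE e)
    rw [hs, hs']
    cases N (cE e) <;> cases U (cE e) <;> cases U' (cE e) <;> norm_num [sg]
  rw [hD]
  exact isLine_of_one h hac

/-- a.e. `b`: the wall between different canonical states is a line -/
theorem line_pairs {lam : Measure ℝ} {C : WT → Set (Ed → Bool)} {Q : Measure XX} {c : ENNReal}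
    (hc : c ≠ 0)
    (hcnt : ∀ D : Set XX, MeasurableSet D → Q D = c * ∫⁻ b, ctC C D b ∂(PB lam))
    (hcm : ∀ D : Set XX, MeasurableSet D → AEMeasurable (ctC C D) (PB lam))
    (hfin : ∀ᵐ b ∂(PB lam), (C b).Finite) (h : ∀ᵐ p ∂Q, One p)
    (hac : ∀ᵐ p ∂Q, ∀ C : Finset Ed, IsCyc C → (∀ e ∈ C, wl p e = true) → C = ∅) :
    ∀ᵐ b ∂(PB lam), ∀ U ∈ C b, ∀ U' ∈ C b, U ≠ U' →
      One (b.1, U, U') ∧ IsLine {e : E | U (cE e) ≠ U' (cE e)} := by
  refine ae_pairs hc hcnt hcm hfin (P := fun p => One p ∧
    IsLine {e : E | p.2.1 (cE e) ≠ p.2.2 (cE e)}) ?_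
  filter_upwards [h, hac] with p hp hp2
  exact ⟨hp, isLine_of_one (w := p.1) (U := p.2.1) (U' := p.2.2) hp hp2⟩

end Pool.Agent.Helper42.M1
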