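import Pool.Agent.Helper61.MM.DefsB
import Pool.Agent.Helper60.TJ.E2

set_option autoImplicit false

/-!
# Even subsets of one wall; from pairs of replicas to canonical pairs
-/

namespace Pool.Agent.Helper42.M1

open MeasureTheory ProbabilityTheory Filter Topology Pool.Agent.Helper60.TJ Pool.Agent.Helper61.MM
open scoped symmDiff

/-! ### even subsets of one wall -/

private theorem loc_aux : ∀ w0 w1 w2 w3 a0 a1 a2 a3 : Bool,
    (a0 = true → w0 = true) → (a1 = true → w1 = true) → (a2 = true → w2 = true) →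
    (a3 = true → w3 = true) → xor (xor w0 w1) (xor w2 w3) = false →
    xor (xor a0 a1) (xor a2 a3) = false →
    (w0 = false ∨ w1 = false ∨ w2 = false ∨ w3 = false) →
    (w0 = true → w1 = true → a0 = a1) ∧ (w0 = true → w2 = true → a0 = a2) ∧
    (w0 = true → w3 = true → a0 = a3) ∧ (w1 = true → w2 = true → a1 = a2) ∧
    (w1 = true → w3 = true → a1 = a3) ∧ (w2 = true → w3 = true → a2 = a3) := by
  intro w0 w1 w2 w3 a0 a1 a2 a3
  cases w0 <;> cases w1 <;> cases w2 <;> cases w3 <;> cases a0 <;> cases a1 <;> cases a2 <;>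
    cases a3 <;> simp

/-- an even subset of an edge set with degrees at most two is saturated -/
theorem sat_of_par {W A : Ed → Bool} (hW : Deg2 W) (hA : ∀ e, A e = true → W e = true)
    (hp : ∀ v, par A v = false) : Sat W A := by
  refine ⟨hA, fun v d d' hd hd' => ?_⟩
  have h3 : W (edg v 0) = false ∨ W (edg v 1) = false ∨ W (edg v 2) = false ∨
      W (edg v 3) = false := by
    obtain ⟨i, hi⟩ := hW.2 v
    fin_cases i
    · exact Or.inl hi
    · exact Or.inr (Or.inl hi)
    · exact Or.inr (Or.inr (Or.inl hi))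
    · exact Or.inr (Or.inr (Or.inr hi))
  obtain ⟨h01, h02, h03, h12, h13, h23⟩ := loc_aux _ _ _ _ _ _ _ _ (hA (edg v 0)) (hA (edg v 1))
    (hA (edg v 2)) (hA (edg v 3)) (hW.1 v) (hp v) h3
  fin_cases d <;> fin_cases d'
  · rfl
  · exact h01 hd hd'
  · exact h02 hd hd'
  · exact h03 hd hd'
  · exact (h01 hd' hd).symm
  · rfl
  · exact h12 hd hd'
  · exact h13 hd hd'
  · exact (h02 hd' hd).symm
  · exact (h12 hd' hd).symm
  · rfl
  · exact h23 hd hd'
  · exact (h03 hd' hd).symm
  · exact (h13 hd' hd).symm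
  · exact (h23 hd' hd).symm
  · rfl

/-- an even subset of one path is empty or the whole path -/
theorem one_sub {p : XX} (h : One p) {A : Ed → Bool} (hA : ∀ e, A e = true → wl p e = true)
    (hp : ∀ v, par A v = false) : A = (fun _ => false) ∨ A = wl p := by
  have hS := sat_of_par h.1 hA hp
  by_cases h0 : ∃ e, A e = true
  · right
    obtain ⟨e₀, he₀⟩ := h0
    obtain ⟨v, d, rfl⟩ := exists_edg e₀
    funext e
    cases he : wl p e
    · cases hAe : A e
      · rfl
      · exact absurd (hA e hAe) (by rw [he]; decide)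
    · obtain ⟨v', d', rfl⟩ := exists_edg e
      have hc := h.2.2 v v' ⟨d, hA _ he₀⟩ ⟨d', he⟩
      rw [← E2.Sat.cn hS hc (hA _ he₀) he, he₀]
  · left
    push Not at h0
    funext e
    cases hAe : A e
    · rfl
    · exact absurd hAe (h0 e)

/-- a set of the same parities which agrees off the wall is one of the two -/
theorem one_two {w : Ed → ℝ} {U U' V : Ed → Bool} (h : One (w, U, U'))
    (hV : ∀ v, par V v = par U v) (hoff : ∀ e, bx U U' e = false → V e = U e) :
    V = U ∨ V = U' := by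
  have h1 : ∀ e, bx V U e = true → wl (w, U, U') e = true := by
    intro e he
    cases hw : wl (w, U, U') e
    · have h2 := hoff e hw
      unfold bx at he
      rw [h2] at he
      simp at he
    · rfl
  have h2 : ∀ v, par (bx V U) v = false := by
    intro v
    rw [par_bx, hV v]
    simp
  rcases one_sub h h1 h2 with h3 | h3
  · left
    have h4 := bx_cancel V U
    rw [h3] at h4
    rw [← h4]
    funext e
    simp [bx]
  · right
    have h4 := bx_cancel V U
    rw [h3] at h4
    rw [← h4]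
    funext e
    simp only [wl, bx]
    cases U e <;> cases U' e <;> rfl

/-! ### from pairs of replicas to canonical pairs -/

variable {lam : Measure ℝ}

/-- almost sure properties of the counted pairs hold for all pairs of different elements of `C b` -/
theorem ae_pairs {C : WT → Set (Ed → Bool)} {Q : Measure XX} {c : ENNReal} (hc : c ≠ 0)
    (hcnt : ∀ D : Set XX, MeasurableSet D → Q D = c * ∫⁻ b, ctC C D b ∂(PB lam))
    (hcm : ∀ D : Set XX, MeasurableSet D → AEMeasurable (ctC C D) (PB lam))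
    (hfin : ∀ᵐ b ∂(PB lam), (C b).Finite) {P : XX → Prop} (h : ∀ᵐ p ∂Q, P p) :
    ∀ᵐ b ∂(PB lam), ∀ U ∈ C b, ∀ U' ∈ C b, U ≠ U' → P (b.1, U, U') := by
  set D := toMeasurable Q {p | ¬ P p} with hD
  have hDm : MeasurableSet D := measurableSet_toMeasurable _ _
  have hD0 : Q D = 0 := by
    rw [hD, measure_toMeasurable]
    exact ae_iff.1 h
  rw [hcnt D hDm] at hD0
  have h1 := (lintegral_eq_zero_iff' (hcm _ hDm)).1 ((mul_eq_zero.1 hD0).resolve_left hc)
  filter_upwards [h1, hfin] with b hb hf U hU U' hU' hne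
  by_contra hn
  have h2 : (b.1, U, U') ∈ D := subset_toMeasurable _ _ hn
  unfold ctC at hb
  rw [Pi.zero_apply, Nat.cast_eq_zero] at hb
  have hfin2 : {q : (Ed → Bool) × (Ed → Bool) | q.1 ∈ C b ∧ q.2 ∈ C b ∧ q.1 ≠ q.2 ∧
      (b.1, q.1, q.2) ∈ D}.Finite :=
    (hf.prod hf).subset fun q hq => ⟨hq.1, hq.2.1⟩
  rw [Set.ncard_eq_zero hfin2] at hb
  have h6 : ((U, U') : (Ed → Bool) × (Ed → Bool)) ∈ {q : (Ed → Bool) × (Ed → Bool) | q.1 ∈ C b ∧
      q.2 ∈ C b ∧ q.1 ≠ q.2 ∧ (b.1, q.1, q.2) ∈ D} := ⟨hU, hU', hne, h2⟩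
  rw [hb] at h6
  exact h6

/-- the wall between different canonical states is one path -/
theorem one_pairs {C : WT → Set (Ed → Bool)} {Q : Measure XX} {c : ENNReal} (hc : c ≠ 0)
    (hcnt : ∀ D : Set XX, MeasurableSet D → Q D = c * ∫⁻ b, ctC C D b ∂(PB lam))
    (hcm : ∀ D : Set XX, MeasurableSet D → AEMeasurable (ctC C D) (PB lam))
    (hfin : ∀ᵐ b ∂(PB lam), (C b).Finite) (h : ∀ᵐ p ∂Q, One p) :
    ∀ᵐ b ∂(PB lam), ∀ U ∈ C b, ∀ U' ∈ C b, U ≠ U' → One (b.1, U, U') :=
  ae_pairs hc hcnt hcm hfin h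

end Pool.Agent.Helper42.M1
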